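import Pool.Agent.H80.JD.Basic

set_option autoImplicit false

namespace Pool.Agent.H49.JD

open Finset Filter Topology Pool.Agent.H80.JD MeasureTheory ProbabilityTheory

/-- the law of `s` times the sum of `k` signs -/
noncomputable def nu (k : ℕ) (s : ℝ) : Measure ℝ :=
  ((2 : ENNReal) ^ k)⁻¹ • ∑ h : Fin k → Bool, Measure.dirac (s * ((ip h (zero k) : ℤ) : ℝ))

theorem two_pow_ne_top (k : ℕ) : ((2 : ENNReal) ^ k)⁻¹ ≠ ⊤ := by
  rw [ENNReal.inv_ne_top]
  positivity

theorem nu_apply (k : ℕ) (s : ℝ) (A : Set ℝ) (hA : MeasurableSet A) :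
    nu k s A = ((2 : ENNReal) ^ k)⁻¹ *
      (Nat.card {h : Fin k → Bool // s * ((ip h (zero k) : ℤ) : ℝ) ∈ A} : ENNReal) := by
  classical
  rw [nu, Measure.smul_apply, Measure.finsetSum_apply, smul_eq_mul]
  congr 1
  rw [Nat.card_eq_fintype_card, Fintype.card_subtype, Finset.card_filter]
  push_cast
  refine Finset.sum_congr rfl fun h _ => ?_
  rw [Measure.dirac_apply' _ hA, Set.indicator_apply]
  simp

instance (k : ℕ) (s : ℝ) : IsProbabilityMeasure (nu k s) := by
  constructor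
  rw [nu_apply k s Set.univ MeasurableSet.univ]
  have h1 : Nat.card {h : Fin k → Bool // s * ((ip h (zero k) : ℤ) : ℝ) ∈ Set.univ} = 2 ^ k := by
    rw [← card_rows k]
    exact Nat.card_congr (Equiv.subtypeUnivEquiv fun _ => Set.mem_univ _)
  rw [h1]
  push_cast
  exact ENNReal.inv_mul_cancel (by positivity) (ENNReal.pow_ne_top (by simp))

theorem charFun_nu (k : ℕ) (s t : ℝ) :
    charFun (nu k s) t = ((Real.cos (t * s) ^ k : ℝ) : ℂ) := by
  rw [charFun_apply_real, nu, integral_smul_measure,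
    integral_finsetSum_measure (fun i _ => integrable_dirac (by simp))]
  simp only [integral_dirac]
  have h1 : (((2 : ENNReal) ^ k)⁻¹).toReal = (1 / 2 : ℝ) ^ k := by
    rw [ENNReal.toReal_inv, ENNReal.toReal_pow]
    simp
  rw [h1]
  have h2 : ∀ h : Fin k → Bool,
      Complex.exp (t * ((s * ((ip h (zero k) : ℤ) : ℝ) : ℝ) : ℂ) * Complex.I) =
        ∏ i : Fin k, Complex.exp ((t * s : ℂ) * (sg (h i) : ℂ) * Complex.I) := by
    intro h
    rw [← Complex.exp_sum, ip_zero]
    congr 1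
    push_cast
    rw [← Finset.sum_mul, ← Finset.mul_sum]
    ring
  simp only [h2]
  have h3 : ∑ h : Fin k → Bool, ∏ i : Fin k,
      Complex.exp ((t * s : ℂ) * (sg (h i) : ℂ) * Complex.I) =
      (2 * Complex.cos (t * s)) ^ k := by
    have e1 := Finset.prod_univ_sum (fun _ : Fin k => (Finset.univ : Finset Bool))
      (fun _ b => Complex.exp ((t * s : ℂ) * (sg b : ℂ) * Complex.I))
    rw [Fintype.piFinset_univ] at e1
    rw [← e1, Finset.prod_const, Finset.card_univ, Fintype.card_fin]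
    congr 1
    rw [Fintype.sum_bool, Complex.two_cos]
    simp only [sg_true, sg_false]
    push_cast
    rw [add_comm]
    congr 1 <;> congr 1 <;> ring
  rw [h3]
  rw [Complex.real_smul, mul_pow]
  push_cast
  rw [← mul_assoc, ← mul_pow]
  norm_num

theorem tendsto_sqrt_mul_sin (a : ℝ) :
    Tendsto (fun n : ℕ => Real.sqrt n * Real.sin (a / Real.sqrt n)) atTop (𝓝 a) := by
  have h0 : Tendsto (fun n : ℕ => a / Real.sqrt n) atTop (𝓝 0) :=
    tendsto_const_nhds.div_atTop (Real.tendsto_sqrt_atTop.comp tendsto_natCast_atTop_atTop)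
  have h1 : Tendsto (fun n : ℕ => a * Real.sinc (a / Real.sqrt n)) atTop (𝓝 (a * 1)) := by
    refine Tendsto.const_mul _ ?_
    have := (Real.continuous_sinc.tendsto 0).comp h0
    rw [Real.sinc_zero] at this
    exact this
  rw [mul_one] at h1
  refine h1.congr' ?_
  filter_upwards [eventually_ge_atTop 1] with n hn
  have hs : 0 < Real.sqrt n := Real.sqrt_pos.2 (by exact_mod_cast hn)
  by_cases ha : a = 0
  · simp [ha]
  · rw [Real.sinc_of_ne_zero (div_ne_zero ha hs.ne')]
    field_simp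

theorem tendsto_cos_pow (t : ℝ) :
    Tendsto (fun n : ℕ => Real.cos (t / Real.sqrt n) ^ n) atTop (𝓝 (Real.exp (-t ^ 2 / 2))) := by
  have h1 := tendsto_sqrt_mul_sin (t / 2)
  have h2 : Tendsto (fun n : ℕ => (n : ℝ) * (Real.cos (t / Real.sqrt n) - 1)) atTop
      (𝓝 (-t ^ 2 / 2)) := by
    have h3 := (h1.pow 2).const_mul (-2)
    have e1 : (-2 : ℝ) * (t / 2) ^ 2 = -t ^ 2 / 2 := by ring
    rw [e1] at h3
    refine h3.congr fun n => ?_
    have h4 : Real.cos (t / Real.sqrt n) = 1 - 2 * Real.sin (t / 2 / Real.sqrt n) ^ 2 := by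
      have e2 : t / Real.sqrt n = 2 * (t / 2 / Real.sqrt n) := by ring
      rw [e2, Real.cos_two_mul, Real.cos_sq']
      ring
    rw [h4, mul_pow, Real.sq_sqrt (Nat.cast_nonneg n)]
    ring
  have h3 := Real.tendsto_one_add_pow_exp_of_tendsto h2
  refine h3.congr fun n => ?_
  congr 1
  ring

theorem tendsto_cos_pow_k (k : ℕ → ℕ) (r t : ℝ)
    (hk : Tendsto (fun n : ℕ => (k n : ℝ) / n) atTop (𝓝 r)) :
    Tendsto (fun n : ℕ => Real.cos (t / Real.sqrt n) ^ (k n)) atTop
      (𝓝 (Real.exp (-(r * t ^ 2 / 2)))) := by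
  have h1 := tendsto_cos_pow t
  have h2 := h1.rpow hk (Or.inl (Real.exp_pos _).ne')
  rw [← Real.exp_mul] at h2
  have e1 : -t ^ 2 / 2 * r = -(r * t ^ 2 / 2) := by ring
  rw [e1] at h2
  refine h2.congr' ?_
  have h0 : Tendsto (fun n : ℕ => Real.cos (t / Real.sqrt n)) atTop (𝓝 1) := by
    have h3 : Tendsto (fun n : ℕ => t / Real.sqrt n) atTop (𝓝 0) :=
      tendsto_const_nhds.div_atTop (Real.tendsto_sqrt_atTop.comp tendsto_natCast_atTop_atTop)
    have := (Real.continuous_cos.tendsto 0).comp h3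
    rw [Real.cos_zero] at this
    exact this
  filter_upwards [eventually_ge_atTop 1, h0.eventually (lt_mem_nhds zero_lt_one)] with n hn hc
  have hn' : (n : ℝ) ≠ 0 := by
    have : (1 : ℝ) ≤ n := by exact_mod_cast hn
    positivity
  rw [← Real.rpow_natCast, ← Real.rpow_mul hc.le, mul_div_cancel₀ _ hn', Real.rpow_natCast]

theorem gauss_scale (r : ℝ) (hr : 0 < r) (x : ℝ) :
    (gaussianReal 0 (NNReal.mk r hr.le)).real (Set.Icc (-x) x) = Φ (x / Real.sqrt r) := by
  have hs : 0 < Real.sqrt r := Real.sqrt_pos.2 hr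
  have h1 := gaussianReal_map_const_mul (μ := 0) (v := 1) (Real.sqrt r)
  have h2 : (NNReal.mk (Real.sqrt r ^ 2) (sq_nonneg _) * 1) = (NNReal.mk r hr.le) := by
    rw [mul_one]
    apply NNReal.eq
    exact Real.sq_sqrt hr.le
  rw [mul_zero, h2] at h1
  rw [← h1, map_measureReal_apply (by fun_prop) measurableSet_Icc, Φ]
  congr 1
  ext y
  simp only [Set.mem_preimage, Set.mem_Icc]
  rw [← neg_div, div_le_iff₀ hs, le_div_iff₀ hs, mul_comm y]

theorem clt : T_CLT := by
  intro k r x hr hx hk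
  let μ : ℕ → ProbabilityMeasure ℝ := fun n => ⟨nu (k n) (Real.sqrt n)⁻¹, inferInstance⟩
  let μ₀ : ProbabilityMeasure ℝ := ⟨gaussianReal 0 (NNReal.mk r hr.le), inferInstance⟩
  have hlim : Tendsto μ atTop (𝓝 μ₀) := by
    refine ProbabilityMeasure.tendsto_iff_tendsto_charFun.2 fun t => ?_
    have e1 : charFun (μ₀ : Measure ℝ) t = ((Real.exp (-(r * t ^ 2 / 2)) : ℝ) : ℂ) := by
      change charFun (gaussianReal 0 (NNReal.mk r hr.le)) t = _
      rw [charFun_gaussianReal]
      push_cast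
      congr 1
      change (t : ℂ) * 0 * Complex.I - (r : ℂ) * (t : ℂ) ^ 2 / 2 = _
      ring
    have e2 : ∀ n, charFun (μ n : Measure ℝ) t =
        ((Real.cos (t / Real.sqrt n) ^ (k n) : ℝ) : ℂ) := by
      intro n
      change charFun (nu (k n) (Real.sqrt n)⁻¹) t = _
      rw [charFun_nu, div_eq_mul_inv]
    rw [e1]
    simp only [e2]
    exact (Complex.continuous_ofReal.tendsto _).comp (tendsto_cos_pow_k k r t hk)
  have hne : (NNReal.mk r hr.le) ≠ 0 := by
    intro h
    have : r = 0 := congrArg NNReal.toReal h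
    exact hr.ne' this
  have hfr : μ₀ (frontier (Set.Icc (-x) x)) = 0 := by
    rw [ProbabilityMeasure.null_iff_toMeasure_null]
    change gaussianReal 0 (NNReal.mk r hr.le) (frontier (Set.Icc (-x) x)) = 0
    have := nullSingletonClass_gaussianReal (μ := 0) hne
    rw [frontier_Icc (by linarith)]
    exact (Set.toFinite _).measure_zero _
  have h1 := ProbabilityMeasure.tendsto_measure_of_null_frontier_of_tendsto hlim hfr
  have h2 : Tendsto (fun n => ((μ n (Set.Icc (-x) x) : NNReal) : ℝ)) atTop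
      (𝓝 ((μ₀ (Set.Icc (-x) x) : NNReal) : ℝ)) := (NNReal.tendsto_coe).2 h1
  have e3 : ((μ₀ (Set.Icc (-x) x) : NNReal) : ℝ) = Φ (x / Real.sqrt r) :=
    gauss_scale r hr x
  rw [e3] at h2
  refine h2.congr' ?_
  filter_upwards [eventually_ge_atTop 1] with n hn
  have hs : 0 < Real.sqrt n := Real.sqrt_pos.2 (by exact_mod_cast hn)
  have e4 : ((μ n (Set.Icc (-x) x) : NNReal) : ℝ) =
      (nu (k n) (Real.sqrt n)⁻¹ (Set.Icc (-x) x)).toReal := rfl
  rw [e4, nu_apply _ _ _ measurableSet_Icc, ENNReal.toReal_mul, ENNReal.toReal_inv,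
    ENNReal.toReal_pow, ENNReal.toReal_natCast, pr, div_eq_inv_mul]
  have e5 : Nat.card {h : Fin (k n) → Bool // (Real.sqrt n)⁻¹ * ((ip h (zero (k n)) : ℤ) : ℝ) ∈
      Set.Icc (-x) x} =
      Nat.card {h : Fin (k n) → Bool // |((ip h (zero (k n)) : ℤ) : ℝ)| ≤ x * Real.sqrt n} := by
    refine Nat.card_congr (Equiv.subtypeEquivRight fun h => ?_)
    rw [Set.mem_Icc, ← abs_le, abs_mul, abs_inv, abs_of_pos hs, inv_mul_le_iff₀ hs, mul_comm x]
  rw [e5]
  simp

end Pool.Agent.H49.JD
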